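import Pool.Agent.TH565.Grp.Main
import Pool.Agent.Helper292.ForceCH

/-!
`S_1(Ω, Ω)` and `S_1(Ω, O^{ω-gp})` differ whenever `cov(M) = 𝔡` is regular (the continuum is
arbitrary), in particular under the continuum hypothesis, which can be forced. The separating set
of reals even fails `S_fin(Ω, Ω)`, and its square is not Menger.
-/

set_option autoImplicit false

namespace Pool.Agent.Results.MP_82c070_gt.CovEqualsD

open Cardinal Pool.Agent.TH565.Grp

/-- (1) If `𝔡 ≤ cov(M)` (that is, `cov(M) = 𝔡`) and `cov(M)` is regular, then some set of reals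
satisfies `S_1(Ω, O^{ω-gp})`, fails `S_fin(Ω, Ω)` and `S_1(Ω, Ω)`, and has a square which is not
Menger. (2) So does some set of reals under the continuum hypothesis. (3) There is a nonempty
forcing notion all of whose conditions force that `ω₁` is preserved and that the continuum
hypothesis holds. -/
theorem result :
    (domD ≤ covM → covM.IsRegular → ∃ X : Set ℝ, S1 (OmegaCovers X) (OmegaGroupable X) ∧
      ¬ Sfin (OmegaCovers X) (OmegaCovers X) ∧ ¬ S1 (OmegaCovers X) (OmegaCovers X) ∧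
      ¬ Sfin (OpenCovers (X × X)) (OpenCovers (X × X))) ∧
    ((ℵ₁ : Cardinal.{0}) = 𝔠 → ∃ X : Set ℝ, S1 (OmegaCovers X) (OmegaGroupable X) ∧
      ¬ Sfin (OmegaCovers X) (OmegaCovers X) ∧ ¬ S1 (OmegaCovers X) (OmegaCovers X) ∧
      ¬ Sfin (OpenCovers (X × X)) (OpenCovers (X × X))) ∧
    (∃ (P : Type) (_ : Preorder P), Nonempty P ∧ ∀ p : P,
      p ∈ Pool.Agent.Helper292.ForceCH.OmegaOnePreserved P ∧
      p ∈ Pool.Agent.Helper292.ForceCH.CHHolds P) := by
  refine ⟨main, main_ch, ?_⟩
  obtain ⟨P, i, h1, h2⟩ := Pool.Agent.Helper292.ForceCH.exists_forcing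
  exact ⟨P, i, h1, fun p => ⟨(h2 p).1, (h2 p).2.2⟩⟩

end Pool.Agent.Results.MP_82c070_gt.CovEqualsD
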